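import Pool.Agent.N755.QBTWO

set_option autoImplicit false
set_option linter.unusedSectionVars false

/-!
# QB/TWO (helper755): two point functions, with the covariance statement of helper559
-/

open MeasureTheory Filter Topology Complex ProbabilityTheory
open scoped ContDiff

namespace Pool.Agent.N661.QB

open Pool.Agent.W745.RW (lap dx dy TF)
open Pool.Agent.N661.BR (MW lin shift IsStationary IsErgodic J0)
open Pool.Agent.N661.BH (HP loc mv LocalLaws area frames)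
open Pool.Agent.N814.BHM
open Pool.Agent.N814.BHASM (HP_open mv_cont mv_mem)
open Pool.Agent.N755.QBTWO

noncomputable section

/-- covariance of a local limit -/
def S_COVH : Prop := ∀ (Ω : Set ℂ) (lam : ℕ → ℝ) (u : ℕ → ℂ → ℝ), HypE Ω lam u →
  ∀ μ : Measure MW, IsProbabilityMeasure μ → LocalLaws Ω lam u μ → IsStationary μ →
  ∫ f : MW, f 0 ^ 2 ∂μ = 1 → ∀ w : ℂ, ∫ f : MW, f 0 * f w ∂μ = J0 ‖w‖

variable {Ω : Set ℂ} {lam : ℕ → ℝ} {u : ℕ → ℂ → ℝ}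

/-- the theorem for measurable functions -/
theorem two_measH (hFDD : S_FDD) (hUI : S_UI) (hERG : S_ERG0) (hSH : S_SH) (hEQ : S_EQ)
    (hTR : S_TR) (hCOV : S_COVH) (H : HypE Ω lam u) (hu : ∀ n, Measurable (u n))
    {μ : Measure MW} (hμ : IsProbabilityMeasure μ) (hL : LocalLaws Ω lam u μ)
    (hs : IsStationary μ) (he : IsErgodic μ) (h1 : ∫ f : MW, f 0 ^ 2 ∂μ = 1) {φ : ℂ → ℝ}
    (hφ : TF Ω φ) (w : ℂ) :
    Tendsto (fun n => T2 φ (lam n) (u n) w) atTop (𝓝 (J0 ‖w‖ * ∫ z, φ z)) := by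
  have h0i : Integrable (fun f : MW => f 0 ^ 2) μ := by
    by_contra hcon
    rw [integral_undef hcon] at h1
    exact zero_ne_one h1
  have hlim := (cM_lim w h0i (sq_int hs h0i w)).mul_const (∫ z, φ z)
  rw [hCOV Ω lam u H μ hμ hL hs h1 w] at hlim
  have hui := hUI Ω lam u H μ hμ hL h1
  obtain ⟨C, hC⟩ := hEQ Ω lam u H φ hφ ‖w‖
  rw [Metric.tendsto_nhds]
  intro ε hε
  have hε5 : 0 < ε / 5 := by positivity
  obtain ⟨M0, hM0⟩ := hTR Ω lam u H hui φ hφ ‖w‖ (ε / 5) hε5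
  obtain ⟨M, hMM0, hM, hMlim⟩ := ((eventually_ge_atTop M0).and ((eventually_ge_atTop 0).and
    (Metric.tendsto_nhds.1 hlim (ε / 5) hε5))).exists
  obtain ⟨cM, hcM⟩ : ∃ cM : ℝ, cM = ∫ f : MW, GM M (f 0) (f w) ∂μ := ⟨_, rfl⟩
  obtain ⟨Φ, hΦ⟩ : ∃ Φ : ℝ, Φ = ∫ z, φ z := ⟨_, rfl⟩
  obtain ⟨δ, hδ, hδ2⟩ : ∃ δ : ℝ, 0 < δ ∧ |C| * (δ * ‖w‖) ≤ ε / 5 := by
    refine ⟨ε / 5 / (|C| * ‖w‖ + 1), by positivity, ?_⟩
    have e : |C| * (ε / 5 / (|C| * ‖w‖ + 1) * ‖w‖) = ε / 5 * (|C| * ‖w‖ / (|C| * ‖w‖ + 1)) := by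
      ring
    rw [e]
    have h3 : |C| * ‖w‖ / (|C| * ‖w‖ + 1) ≤ 1 := by
      rw [div_le_one (by positivity)]
      linarith
    calc ε / 5 * (|C| * ‖w‖ / (|C| * ‖w‖ + 1)) ≤ ε / 5 * 1 :=
          mul_le_mul_of_nonneg_left h3 hε5.le
      _ = ε / 5 := mul_one _
  have hS := Q_pos hδ
  filter_upwards [hC, hM0 M hMM0, claimA hFDD hERG hSH H hu hμ hL hs he hφ hM w
    (mul_pos hε5 hS)] with n hn1 hn2 hn3
  rw [← hcM, ← hΦ] at hn3 hMlim
  rw [← hΦ]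
  obtain ⟨q, hqS, hq⟩ : ∃ q ∈ Set.Ioc 0 δ ×ˢ ({true} : Set Bool),
      |T2c M φ (lam n) (u n) (rot q w) - cM * Φ| < ε / 5 := by
    by_contra hcon
    push Not at hcon
    have hint : Integrable (fun q => |T2c M φ (lam n) (u n) (rot q w) - cM * Φ|) Q := by
      refine Integrable.of_bound
        ((T2c_meas M hφ (lam n) (hu n) w).sub_const _).abs.aestronglyMeasurable
        ((∫ z, |φ z| * (M * M)) + |cM * Φ|) (Eventually.of_forall fun q => ?_)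
      rw [Real.norm_eq_abs, abs_abs]
      exact (abs_sub _ _).trans (add_le_add (T2c_bdd hM hφ _ _ _) le_rfl)
    have h5 := mul_meas_ge_le_integral_of_nonneg
      (Eventually.of_forall fun q => abs_nonneg _) hint (ε / 5)
    have h6 : Q.real (Set.Ioc 0 δ ×ˢ ({true} : Set Bool)) ≤
        Q.real {q | ε / 5 ≤ |T2c M φ (lam n) (u n) (rot q w) - cM * Φ|} :=
      measureReal_mono fun q hq => hcon q hq
    have h7 := mul_le_mul_of_nonneg_left h6 hε5.le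
    linarith
  obtain ⟨t, b⟩ := q
  obtain ⟨⟨ht0, htδ⟩, hb⟩ := hqS
  have hb' : b = true := hb
  subst hb'
  have ht0' : 0 < t := ht0
  have htδ' : t ≤ δ := htδ
  have k1 := hn1 w (rot (t, true) w) le_rfl (norm_rot _ _).le
  have k2 := hn2 (rot (t, true) w) (norm_rot _ _).le
  have k3 : C * ‖w - rot (t, true) w‖ ≤ ε / 5 := by
    refine le_trans ?_ hδ2
    refine mul_le_mul (le_abs_self C) ?_ (norm_nonneg _) (abs_nonneg _)
    rw [norm_sub_rev]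
    exact (rot_sub ht0'.le w).trans (mul_le_mul_of_nonneg_right htδ' (norm_nonneg _))
  rw [Real.dist_eq] at hMlim ⊢
  have k4 := abs_le.1 (k1.trans k3)
  have k5 := abs_le.1 k2
  have k6 := abs_lt.1 hq
  have k7 := abs_lt.1 hMlim
  rw [abs_lt]
  constructor <;> linarith [k4.1, k4.2, k5.1, k5.2, k6.1, k6.2, k7.1, k7.2]

theorem TWOH : S_FDD → S_UI → S_ERG0 → S_SH → S_EQ → S_TR → S_COVH → S_TWO := by
  intro hFDD hUI hERG hSH hEQ hTR hCOV Ω lam u H μ hμ hL hs he h1 φ hφ v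
  refine (two_measH hFDD hUI hERG hSH hEQ hTR hCOV (U_hyp H) (fun n => U_meas (H.sm n)) hμ
    (U_laws H hL) hs he h1 hφ v).congr' (U_T2 H hφ v)

end

end Pool.Agent.N661.QB
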