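import Pool.Agent.N661.QB.Fin
import Pool.Agent.N232.QBSYS
import Pool.Agent.N459.QBFDD
import Pool.Agent.N407.QBERG0
import Pool.Agent.N661.QB.Two2
import Pool.Agent.N93.QBDER1
import Pool.Agent.N717.QBDER2
import Pool.Agent.N603.QBDER3
import Pool.Agent.N559.QBCOV
import Pool.Agent.N222.QBEQ
import Pool.Agent.N933.QBUI
import Pool.Agent.N945.QBSH
import Pool.Agent.N271.QBTR

/-!
# Project QB: everything together

Leaves by helper93, helper222, helper232, helper271, helper407, helper459, helper559, helper603,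
helper717, helper755, helper933 and helper945.
-/

set_option autoImplicit false
open MeasureTheory Filter Topology Complex ProbabilityTheory
open scoped ContDiff ENNReal

namespace Pool.Agent.N661.QB

open Pool.Agent.N661.BR
open Pool.Agent.N661.BH (HP LocalLaws)

theorem two : S_TWO :=
  TWOH Pool.Agent.N459.QBFDD.FDD
    (Pool.Agent.N933.QBUI.UI Pool.Agent.N459.QBFDD.FDD) Pool.Agent.N407.QBERG0.ERG0
    (Pool.Agent.N945.QB.SH Pool.Agent.N232.QBSYS.SYS)
    (Pool.Agent.N222.QBEQ.EQ Pool.Agent.N232.QBSYS.SYS) Pool.Agent.N271.QBTR.TR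
    Pool.Agent.N559.QBCOV.COV

/-- ergodic local limits and quantum unique ergodicity -/
theorem final' {Ω : Set ℂ} {lam : ℕ → ℝ}
    {u : ℕ → ℂ → ℝ} (H : HypE Ω lam u) {μ : Measure MW} (hμp : IsProbabilityMeasure μ)
    (hμ : LocalLaws Ω lam u μ) (hs : IsStationary μ) (he : IsErgodic μ)
    (hvar : ∫ f : MW, f 0 ^ 2 ∂μ = 1) :
    Pool.Agent.N661.BH.IsQuantumErgodic Ω lam u ∧ Gau4 μ ∧
      (∀ w w' : ℂ, ∫ f : MW, f w * f w' ∂μ = J0 ‖w - w'‖) ∧
      (IsInfinitelyDivisible μ → IsRandomWave μ) :=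
  final two Pool.Agent.N232.QBSYS.SYS
    (Pool.Agent.N603.QBDER3.DER3 Pool.Agent.N93.QB.DER1 Pool.Agent.N717.QBDER2.DER2)
    H hμp hμ hs he hvar

end Pool.Agent.N661.QB
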