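import Pool.Agent.N661.BH.Defs3

/-!
# Project QB (helper661): ergodic local limits of eigenfunctions, definitions

`Ω` is an open subset of the hyperbolic plane (the half plane `im z > 0` with the area measure
`(im z)⁻² dx dy`), and `u n` are real functions on it.
-/

set_option autoImplicit false
open MeasureTheory Filter Topology Complex ProbabilityTheory
open scoped ContDiff

namespace Pool.Agent.N661.QB

/-- the mean square of `u n` over `Ω` tends to `1` -/
def MeanSquareOne (Ω : Set ℂ) (u : ℕ → ℂ → ℝ) : Prop :=
  (∀ n, IntegrableOn (fun z : ℂ => u n z ^ 2 / z.im ^ 2) Ω) ∧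
    Tendsto (fun n => (∫ z in Ω, u n z ^ 2 / z.im ^ 2) / ∫ z in Ω, 1 / z.im ^ 2) atTop (𝓝 1)

end Pool.Agent.N661.QB
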