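import Pool.Agent.N661.QB.Stm
import Pool.Agent.N661.BH.FM2

/-!
# Project QB: assembly
-/

set_option autoImplicit false
open MeasureTheory Filter Topology Complex ProbabilityTheory
open scoped ContDiff ENNReal

namespace Pool.Agent.N661.QB

open Pool.Agent.N661.BR
open Pool.Agent.N661.BH (HP LocalLaws limit_all')
open Pool.Agent.N814.BHASM (Hyp)

/-- a good ergodic law is Gaussian to fourth order -/
theorem gau_of_good {μ : Measure MW} [IsProbabilityMeasure μ] (hs : IsStationary μ)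
    (he : IsErgodic μ) (h : Good μ) : Gau4 μ := by
  have h2 : ∀ w w' : ℂ, ∫ f : MW, f w * f w' ∂μ = 1 * cov unif (w - w') := fun w w' => by
    rw [one_mul, Pool.Agent.N141.BRUNIF.cov_unif, h.two]
  obtain ⟨h4, h1⟩ := Pool.Agent.N273.BRERG.ERG μ inferInstance hs he (h.fin 0) 1 unif inferInstance
    h2 Pool.Agent.N141.BRUNIF.par
  refine ⟨h1, h.fin, Pool.Agent.N878.BR.THREE μ inferInstance hs 1 unif inferInstance h4
    Pool.Agent.N141.BRUNIF.par, fun a b c d => ?_⟩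
  rw [h.four, h.two, h.two, h.two, h.two, h.two, h.two]

/-- ergodic local limits -/
theorem final (hT : S_TWO) (hS : S_SYS) (hD : S_DER) {Ω : Set ℂ} {lam : ℕ → ℝ}
    {u : ℕ → ℂ → ℝ} (H : HypE Ω lam u) {μ : Measure MW} (hμp : IsProbabilityMeasure μ)
    (hμ : LocalLaws Ω lam u μ) (hs : IsStationary μ) (he : IsErgodic μ)
    (hvar : ∫ f : MW, f 0 ^ 2 ∂μ = 1) :
    Pool.Agent.N661.BH.IsQuantumErgodic Ω lam u ∧ Gau4 μ ∧
      (∀ w w' : ℂ, ∫ f : MW, f w * f w' ∂μ = J0 ‖w - w'‖) ∧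
      (IsInfinitelyDivisible μ → IsRandomWave μ) := by
  have hq : Pool.Agent.N661.BH.IsQuantumErgodic Ω lam u :=
    hD Ω lam u H (hS Ω lam u H) (hT Ω lam u H μ hμp hμ hs he hvar)
  have H' : Hyp Ω lam u := ⟨H.op, H.sub, H.ne, H.int, H.pos, H.lim, H.sm, H.eq, hq⟩
  obtain ⟨h1, _, h3⟩ := limit_all' H' hμp hμ
  obtain ⟨hg, hi⟩ := ergodic_limit' h1 h3 hvar hs he
  exact ⟨hq, gau_of_good hs he hg, hg.two, hi⟩

end Pool.Agent.N661.QB
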