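import Pool.Agent.N661.QB.Defs
import Pool.Agent.N814.BHY

/-!
# Project QB (helper661): ergodic local limits and quantum ergodicity (MP_07c750_an)

Everything here is without the hypothesis of quantum ergodicity.
-/

set_option autoImplicit false
open MeasureTheory Filter Topology Complex ProbabilityTheory
open scoped ContDiff

namespace Pool.Agent.N661.QB

open Pool.Agent.W745.RW (lap dx dy TF)
open Pool.Agent.TH294.RS (DP DM)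
open Pool.Agent.Y265.HY (M2C)
open Pool.Agent.N661.BR (MW lin shift IsStationary IsErgodic J0)
open Pool.Agent.N661.BH (HP loc mv LocalLaws IsQuantumErgodic)
open Pool.Agent.N814.BHASM (wl)

noncomputable section

/-- hypotheses -/
structure HypE (Ω : Set ℂ) (lam : ℕ → ℝ) (u : ℕ → ℂ → ℝ) : Prop where
  op : IsOpen Ω
  sub : Ω ⊆ HP
  ne : Ω.Nonempty
  int : IntegrableOn (fun z : ℂ => 1 / z.im ^ 2) Ω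
  pos : ∀ n, 0 < lam n
  lim : Tendsto lam atTop atTop
  sm : ∀ n, ContDiffOn ℝ ∞ (u n) HP
  eq : ∀ n, ∀ z ∈ HP, z.im ^ 2 * lap (u n) z + lam n * u n z = 0
  ms : MeanSquareOne Ω u

/-- ladder systems without quantum ergodicity -/
structure SY0 (B : Set ℂ) (h : ℕ → ℝ) (w : ℤ → ℕ → ℂ → ℂ) : Prop where
  op : IsOpen B
  hpos : ∀ n, 0 < h n
  hlim : Tendsto h atTop (𝓝 0)
  pa : ∀ z ∈ B, 0 < z.im
  bd : ∀ k, M2C B h (w k)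
  up : ∀ k, ∃ e, M2C B h e ∧ ∀ n, ∀ z ∈ B,
    DP Complex.im (h n) (w k n) z = w (k + 1) n z + (h n : ℂ) * e n z
  dn : ∀ k, ∃ e, M2C B h e ∧ ∀ n, ∀ z ∈ B,
    DM Complex.im (h n) (w k n) z = - w (k - 1) n z + (h n : ℂ) * e n z
  cj : ∀ k n, ∀ z ∈ B, (starRingEnd ℂ) (w k n z) = (-1) ^ k.natAbs * w (-k) n z

/-- rotations and reflections -/
def rot (q : ℝ × Bool) (w : ℂ) : ℂ :=
  if q.2 = true then Complex.exp (q.1 * I) * w else Complex.exp (q.1 * I) * starRingEnd ℂ w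

/-- the value at the point `w` of the local function at `p.1`, in the frame `p.2` -/
def Y (lam : ℝ) (u : ℂ → ℝ) (w : ℂ) (p : ℂ × (ℝ × Bool)) : ℝ := loc lam u p.1 (rot p.2 w)

/-- truncation -/
def cut (M s : ℝ) : ℝ := max (-M) (min M s)

/-- the two point function -/
def T2 (φ : ℂ → ℝ) (lam : ℝ) (u : ℂ → ℝ) (v : ℂ) : ℝ :=
  ∫ z, φ z * (u z * u (mv (1 / √lam) v z))

/-- the truncated two point function -/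
def T2c (M : ℝ) (φ : ℂ → ℝ) (lam : ℝ) (u : ℂ → ℝ) (v : ℂ) : ℝ :=
  ∫ z, φ z * (cut M (u z) * cut M (u (mv (1 / √lam) v z)))

/-- QB/SYS -/
def S_SYS : Prop := ∀ (Ω : Set ℂ) (lam : ℕ → ℝ) (u : ℕ → ℂ → ℝ), HypE Ω lam u →
  SY0 Ω (fun n => 1 / √(lam n)) (wl lam u)

/-- QB/FDD: joint laws of values in random frames -/
def S_FDD : Prop := ∀ (Ω : Set ℂ) (lam : ℕ → ℝ) (u : ℕ → ℂ → ℝ), HypE Ω lam u →
  ∀ μ : Measure MW, IsProbabilityMeasure μ → LocalLaws Ω lam u μ →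
  ∀ (k : ℕ) (w : Fin k → ℂ) (G : (Fin k → ℝ) → ℝ), Continuous G → (∃ C : ℝ, ∀ x, |G x| ≤ C) →
    Tendsto (fun n => ∫ p, G (fun j => Y (lam n) (u n) (w j) p) ∂(Pool.Agent.N814.BHM.P Ω)) atTop
      (𝓝 (∫ f : MW, G (fun j => f (w j)) ∂μ))

/-- the squares are uniformly integrable over `Ω` -/
def UI2 (Ω : Set ℂ) (u : ℕ → ℂ → ℝ) : Prop :=
  ∀ ε : ℝ, 0 < ε → ∃ M0 : ℝ, ∀ M : ℝ, M0 ≤ M → ∀ᶠ n in atTop,
    ∫ z in Ω, (if M < |u n z| then u n z ^ 2 else 0) / z.im ^ 2 ≤ ε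

/-- QB/UI -/
def S_UI : Prop := ∀ (Ω : Set ℂ) (lam : ℕ → ℝ) (u : ℕ → ℂ → ℝ), HypE Ω lam u →
  ∀ μ : Measure MW, IsProbabilityMeasure μ → LocalLaws Ω lam u μ →
  ∫ f : MW, f 0 ^ 2 ∂μ = 1 → UI2 Ω u

/-- QB/ERG: convex combinations of translates -/
def S_ERG0 : Prop := ∀ μ : Measure MW, IsProbabilityMeasure μ → IsStationary μ → IsErgodic μ →
  ∀ a : MW → ℝ, Measurable a → (∃ C : ℝ, ∀ f, |a f| ≤ C) → ∀ ε : ℝ, 0 < ε →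
    ∃ (m : ℕ) (x : Fin m → ℂ) (p : Fin m → ℝ), (∀ j, 0 ≤ p j) ∧ ∑ j, p j = 1 ∧
      ∫ f, (∑ j, p j * a (shift (x j) f) - ∫ g, a g ∂μ) ^ 2 ∂μ ≤ ε

/-- QB/SH: translations, uniformly in the frame -/
def S_SH : Prop := ∀ (Ω : Set ℂ) (lam : ℕ → ℝ) (u : ℕ → ℂ → ℝ), HypE Ω lam u →
  ∀ φ, TF Ω φ → ∀ (G : ℝ → ℝ → ℝ) (C : ℝ), (∀ s t, |G s t| ≤ C) →
  (∀ s t s' t', |G s t - G s' t'| ≤ C * (|s - s'| + |t - t'|)) → ∀ w1 w2 x : ℂ,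
  ∀ ε : ℝ, 0 < ε → ∀ᶠ n in atTop, ∀ q : ℝ × Bool,
    |(∫ z, φ z * G (Y (lam n) (u n) (w1 + x) (z, q)) (Y (lam n) (u n) (w2 + x) (z, q))) -
      ∫ z, φ z * G (Y (lam n) (u n) w1 (z, q)) (Y (lam n) (u n) w2 (z, q))| ≤ ε

/-- QB/EQ: equicontinuity of the two point functions -/
def S_EQ : Prop := ∀ (Ω : Set ℂ) (lam : ℕ → ℝ) (u : ℕ → ℂ → ℝ), HypE Ω lam u →
  ∀ φ, TF Ω φ → ∀ R : ℝ, ∃ C : ℝ, ∀ᶠ n in atTop, ∀ v v' : ℂ, ‖v‖ ≤ R → ‖v'‖ ≤ R →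
    |T2 φ (lam n) (u n) v - T2 φ (lam n) (u n) v'| ≤ C * ‖v - v'‖

/-- QB/TR: truncation -/
def S_TR : Prop := ∀ (Ω : Set ℂ) (lam : ℕ → ℝ) (u : ℕ → ℂ → ℝ), HypE Ω lam u → UI2 Ω u →
  ∀ φ, TF Ω φ → ∀ R ε : ℝ, 0 < ε → ∃ M0 : ℝ, ∀ M : ℝ, M0 ≤ M → ∀ᶠ n in atTop, ∀ v : ℂ, ‖v‖ ≤ R →
    |T2 φ (lam n) (u n) v - T2c M φ (lam n) (u n) v| ≤ ε

/-- QB/COV: the covariance of a local limit -/
def S_COV : Prop := ∀ (Ω : Set ℂ) (lam : ℕ → ℝ) (u : ℕ → ℂ → ℝ),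
  ∀ μ : Measure MW, IsProbabilityMeasure μ → LocalLaws Ω lam u μ → IsStationary μ →
  ∫ f : MW, f 0 ^ 2 ∂μ = 1 → ∀ w : ℂ, ∫ f : MW, f 0 * f w ∂μ = J0 ‖w‖

/-- QB/TWO: two point functions -/
def S_TWO : Prop := ∀ (Ω : Set ℂ) (lam : ℕ → ℝ) (u : ℕ → ℂ → ℝ), HypE Ω lam u →
  ∀ μ : Measure MW, IsProbabilityMeasure μ → LocalLaws Ω lam u μ → IsStationary μ → IsErgodic μ →
  ∫ f : MW, f 0 ^ 2 ∂μ = 1 → ∀ φ, TF Ω φ → ∀ v : ℂ,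
    Tendsto (fun n => T2 φ (lam n) (u n) v) atTop (𝓝 (J0 ‖v‖ * ∫ z, φ z))

/-- QB/DER: from two point functions to all derivatives -/
def S_DER : Prop := ∀ (Ω : Set ℂ) (lam : ℕ → ℝ) (u : ℕ → ℂ → ℝ), HypE Ω lam u →
  SY0 Ω (fun n => 1 / √(lam n)) (wl lam u) →
  (∀ φ, TF Ω φ → ∀ v : ℂ, Tendsto (fun n => T2 φ (lam n) (u n) v) atTop
    (𝓝 (J0 ‖v‖ * ∫ z, φ z))) → IsQuantumErgodic Ω lam u

/-- a system of functions on `[0, 1]` with `P_k' = a P_{k+1} + b P_{k-1} + O(h)` -/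
def Sys (P P' : ℕ → ℤ → ℝ → ℂ) (h : ℕ → ℝ) (a b : ℂ) : Prop :=
  (∀ k, ∃ C : ℝ, ∀ᶠ n in atTop, ∀ t ∈ Set.Icc (0 : ℝ) 1, ‖P n k t‖ ≤ C) ∧
    ∀ k, ∃ C : ℝ, ∀ᶠ n in atTop, ∀ t ∈ Set.Icc (0 : ℝ) 1, HasDerivAt (P n k) (P' n k t) t ∧
      ‖P' n k t - (a * P n (k + 1) t + b * P n (k - 1) t)‖ ≤ C * h n

/-- the value at `0` of the `j`-th derivative, up to `O(h)` -/
def LL (a b : ℂ) (j : ℕ) (P : ℤ → ℝ → ℂ) : ℂ :=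
  ∑ i ∈ Finset.range (j + 1), (j.choose i : ℂ) * a ^ i * b ^ (j - i) * P (2 * i - j) 0

/-- QB/DER1 -/
def S_DER1 : Prop := ∀ (B : Set ℂ) (h : ℕ → ℝ) (w : ℤ → ℕ → ℂ → ℂ), SY0 B h w →
  ∀ φ, TF B φ → ∀ v : ℂ, ∃ P' : ℕ → ℤ → ℝ → ℂ,
    Sys (fun n k t => ∫ z, (φ z : ℂ) * (w 0 n z * w k n (mv (t * h n) v z))) P' h
      (v / 2) (-((starRingEnd ℂ) v / 2))

/-- QB/DER2 -/
def S_DER2 : Prop := ∀ (P P' Q Q' : ℕ → ℤ → ℝ → ℂ) (h : ℕ → ℝ) (a b c d : ℂ),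
  (∀ n, 0 < h n) → Tendsto h atTop (𝓝 0) → Sys P P' h a b → Sys Q Q' h c d →
  (∀ t ∈ Set.Icc (0 : ℝ) 1, Tendsto (fun n => P n 0 t - Q n 0 t) atTop (𝓝 0)) →
  ∀ j, Tendsto (fun n => LL a b j (P n) - LL c d j (Q n)) atTop (𝓝 0)

end

end Pool.Agent.N661.QB
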